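import Pool.Agent.R218.BE.CountA
import Pool.Agent.R218.BE.CountB
import Pool.Agent.R218.BE.LogC

/-!
# MP_2f7936_co, Q1: for fixed `k` the Boolean–Eulerian numbers are log-concave in `n`

The definitions (`DecTree`, `DecTree.Two`, `DecTree.rightEdges`, `BiTree`, `BoEl`) are in
`Pool/Agent/R218/BE/Defs.lean`.
-/

set_option autoImplicit false

open Finset
open scoped BigOperators

namespace Pool.Agent.Results.MP_2f7936_co.ColumnLogConcave

open R218.BE

/-- the Boolean–Eulerian numbers as the sums studied in `LogC` -/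
lemma BoEl_eq_b (k l : ℕ) : (BoEl (k + l + 1) (k + 1) : ℚ) = b k l := by
  rw [sb sa sf k l]
  unfold b w
  apply sum_congr rfl
  intro t ht
  rw [mem_range] at ht
  by_cases h : t ≤ l
  · rw [if_pos h, if_pos ⟨by omega, h⟩]
  · rw [if_neg h, if_neg (by tauto)]

/-- All Boolean–Eulerian numbers `BoEl n k` with `1 ≤ k ≤ n` are positive, and for every fixed
`k ≥ 2` the sequence `n ↦ BoEl n k` (`n ≥ k`) is log-concave:
`BoEl (n - 1) k * BoEl (n + 1) k ≤ (BoEl n k) ^ 2` for all `n ≥ k + 1`. -/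
theorem result :
    (∀ k n : ℕ, 1 ≤ k → k ≤ n → 0 < BoEl n k) ∧
    (∀ k : ℕ, 2 ≤ k → ∀ n : ℕ, k + 1 ≤ n →
      BoEl (n - 1) k * BoEl (n + 1) k ≤ BoEl n k ^ 2) := by
  constructor
  · intro k n hk hn
    obtain ⟨k, rfl⟩ := Nat.exists_eq_add_of_le' hk
    obtain ⟨l, rfl⟩ := Nat.exists_eq_add_of_le hn
    have h := BoEl_eq_b k l
    have e : k + 1 + l = k + l + 1 := by ring
    rw [e]
    have hp := b_pos k l
    rw [← h] at hp
    exact_mod_cast hp
  · intro k hk n hn
    obtain ⟨k, rfl⟩ := Nat.exists_eq_add_of_le' hk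
    obtain ⟨l, rfl⟩ := Nat.exists_eq_add_of_le hn
    have e0 : k + 2 + 1 + l - 1 = (k + 1) + l + 1 := by omega
    have e1 : k + 2 + 1 + l = (k + 1) + (l + 1) + 1 := by ring
    have e2 : k + 2 + 1 + l + 1 = (k + 1) + (l + 2) + 1 := by ring
    have h0 := BoEl_eq_b (k + 1) l
    have h1 := BoEl_eq_b (k + 1) (l + 1)
    have h2 := BoEl_eq_b (k + 1) (l + 2)
    have h := b_logconcave k l
    rw [← h0, ← h1, ← h2] at h
    rw [e0, e2, e1]
    exact_mod_cast h

end Pool.Agent.Results.MP_2f7936_co.ColumnLogConcave
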